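import Pool.Agent.Lib.helper15.Hol1

open Set Filter Topology Metric

namespace Pool.Agent.Results.MP_93c42a_an.Shift

/-- Property (H) of the closed unit ball of `X`. -/
def PropH (X : Type) [NormedAddCommGroup X] : Prop := ∀ α : ℝ, 0 < α → α < 1 →
  ∃ T : closedBall (0 : X) 1 → closedBall (0 : X) 1,
    (∀ n ≥ 1, ∀ x y, ‖(T^[n] x : X) - T^[n] y‖ ≤ ‖(x : X) - y‖ ^ α) ∧ (∀ x, T x ≠ x) ∧
    ⨅ x : closedBall (0 : X) 1, ‖(x : X) - T x‖ = 0

/-- The quadratic variations of a real sequence along increasing index sequences. -/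
def JV (x : ℕ → ℝ) : Set ℝ := {s | ∃ k ≥ 1, ∃ p : ℕ → ℕ, StrictMono p ∧
  s = √(∑ i ∈ Finset.range k, (x (p i) - x (p (i + 1))) ^ 2)}

/-- `X` is James' space `J₂` with the norm `‖·‖_J`, up to a linear identification `c`. -/
def IsJames (X : Type) [NormedAddCommGroup X] [NormedSpace ℝ X] : Prop :=
  ∃ c : X →ₗ[ℝ] (ℕ → ℝ), Function.Injective c ∧
    range c = {x | Tendsto x atTop (𝓝 0) ∧ BddAbove (JV x)} ∧ ∀ x, ‖x‖ = sSup (JV (c x))

/-- `X` contains a complemented subspace isomorphic to `Z`. -/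
def HasCompl (X Z : Type) [NormedAddCommGroup X] [NormedSpace ℝ X] [NormedAddCommGroup Z]
    [NormedSpace ℝ Z] : Prop := ∃ (i : Z →L[ℝ] X) (ρ : X →L[ℝ] Z), ∀ z, ρ (i z) = z

lemma ne (x : ℕ → ℝ) : (JV x).Nonempty := ⟨_, 1, le_rfl, id, strictMono_id, rfl⟩

lemma s1 (x : ℕ → ℝ) : JV x ⊆ JV fun n => x (n - 1) := by
  rintro _ ⟨k, hk, p, hp, rfl⟩
  exact ⟨k, hk, fun i => p i + 1, fun a b h => Nat.succ_lt_succ (hp h), by simp⟩

lemma s2 (x : ℕ → ℝ) : (JV fun n => x (n - 1)) ⊆ insert 0 (JV x) := by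
  rintro _ ⟨k, hk, p, hp, rfl⟩
  have h0 := hp zero_lt_one
  have h : ∀ i, p 0 < p (i + 1) := fun i => hp i.succ_pos
  by_cases h1 : p 1 = 1
  · obtain ⟨k, rfl⟩ := Nat.exists_eq_add_of_le' hk
    rw [Finset.sum_range_succ', zero_add, h1, show p 0 = 0 by omega]
    rcases k.eq_zero_or_pos with rfl | hk
    · simp
    · exact .inr ⟨k, hk, fun i => p (i + 1) - 1, strictMono_nat_of_lt_succ fun i => by
        have := h i
        have := hp (i + 1).lt_succ_self
        simp only [Nat.succ_eq_add_one] at this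
        omega, by simp⟩
  · exact .inr ⟨k, hk, fun i => p i - 1, strictMono_nat_of_lt_succ fun i => by
      have := hp i.lt_succ_self
      simp only [Nat.succ_eq_add_one] at this
      rcases i with _ | i
      · simp only [zero_add] at *
        omega
      · have := h i
        omega, rfl⟩

lemma anti {x : ℕ → ℝ} (hx : Antitone x) (h0 : ∀ n, 0 ≤ x n) : x 0 ∈ upperBounds (JV x) := by
  rintro _ ⟨k, -, p, hp, rfl⟩
  refine Real.sqrt_le_iff.2 ⟨h0 0, (Finset.sum_sq_le_sq_sum_of_nonneg fun i _ =>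
    sub_nonneg.2 (hx (hp i.lt_succ_self).le)).trans ?_⟩
  rw [Finset.sum_range_sub' fun i => x (p i)]
  exact pow_le_pow_left₀ (sub_nonneg.2 (hx (hp.monotone k.zero_le)))
    (by linarith [hx (p 0).zero_le, h0 (p k)]) 2

lemma james (X : Type) [NormedAddCommGroup X] [NormedSpace ℝ X] (h : IsJames X) : PropH X := by
  obtain ⟨c, ci, cr, cn⟩ := h
  have m : ∀ x, Tendsto (c x) atTop (𝓝 0) ∧ BddAbove (JV (c x)) := fun x => cr.subset ⟨x, rfl⟩
  have b : ∀ x, BddAbove (JV fun n => c x (n - 1)) := fun x => ((m x).2.insert 0).mono (s2 _)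
  choose S hS using fun x => cr.symm.subset
    (show (fun n => c x (n - 1)) ∈ _ from ⟨(m x).1.comp (tendsto_sub_atTop_nat 1), b x⟩)
  have an : ∀ y : ℕ → ℝ, Antitone y → (∀ n, 0 ≤ y n) → ∀ N, y N = 0 →
      ∃ x, c x = y ∧ ‖x‖ ≤ y 0 := fun y hy h0 N hN => by
    obtain ⟨x, rfl⟩ := cr.symm.subset (show y ∈ _ from ⟨tendsto_const_nhds.congr'
      ((eventually_ge_atTop N).mono fun n hn => (h0 n).antisymm (hN ▸ hy hn)), _, anti hy h0⟩)
    exact ⟨x, rfl, cn x ▸ csSup_le (ne _) (anti hy h0)⟩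
  have lb : ∀ x n, |c x 0 - c x (n + 1)| ≤ ‖x‖ := fun x n => cn x ▸ le_csSup (m x).2
    ⟨1, le_rfl, fun i => i * (n + 1), strictMono_id.mul_const n.succ_pos, by
      simp [Real.sqrt_sq_eq_abs]⟩
  choose u hu hu' using fun N : ℕ => an (fun n => if n ≤ N then 1 else 0) (fun a b h => by
    dsimp only; split_ifs <;> first | omega | norm_num) (fun n => by positivity) (N + 1) (by simp)
  let S' : X →ₗᵢ[ℝ] X :=
    { toFun := S
      map_add' := fun x y => ci (by simp only [map_add, hS]; rfl)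
      map_smul' := fun t x => ci (by simp only [map_smul, hS]; rfl)
      norm_map' := fun x => by
        show ‖S x‖ = _
        rw [cn, cn, hS]
        refine le_antisymm (csSup_le (ne _) fun s hs => (s2 _ hs).elim (fun h => ?_)
          (le_csSup (m x).2)) (csSup_le_csSup (b x) (ne _) (s1 _))
        rw [h, ← cn]
        exact norm_nonneg _ }
  intro α h0 h1
  refine Pool.Agent.Lib.helper15.Hol.gen (.id ℝ X) (.id ℝ X) (fun _ => rfl) S'
    (LinearMap.mkContinuous
      { toFun := fun x => c x 0 - c x 1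
        map_add' := fun x y => by simp; ring
        map_smul' := fun t x => by simp; ring } 1
      fun x => (lb x 0).trans_eq (one_mul _).symm) (u 0) (by simp [hu]) (fun z => by
      show c (S z) 0 - c (S z) 1 = 0
      simp [hS]) (fun z hz => ci ?_) (fun ε hε => ?_) h0 h1
  · have e : ∀ n, c z n = c z 0 := fun n => by
      induction n with
      | zero => rfl
      | succ n ih =>
        exact (congrFun ((congrArg c (show S z = z from hz)).symm.trans (hS z)) (n + 1)).trans ih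
    have := tendsto_nhds_unique ((m z).1.congr e) tendsto_const_nhds
    rw [map_zero]
    exact funext fun n => (e n).trans this.symm
  · obtain ⟨N, hN⟩ := exists_nat_gt (2 / ε)
    obtain ⟨z, hz, -⟩ := an (fun n => ((N + 1 - n : ℕ) : ℝ))
      (fun a b h => Nat.cast_le.2 (by omega)) (fun n => by positivity) (N + 1) (by simp)
    refine ⟨z, ?_⟩
    have e : S' z - z = u (N + 1) - u 0 := ci (funext fun n => by
      show c (S z - z) n = _
      simp only [map_sub, Pi.sub_apply, hS, hz, hu]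
      rcases n with _ | n
      · simp
      · split_ifs with h h' h'
        · omega
        · rw [show N + 1 - (n + 1 - 1) = N + 1 - (n + 1) + 1 by omega]; simp
        · omega
        · rw [show N + 1 - (n + 1 - 1) = 0 by omega, show N + 1 - (n + 1) = 0 by omega]; simp)
    have l := lb z N
    simp only [hz, Nat.sub_self, Nat.cast_zero, sub_zero, Nat.abs_cast, tsub_zero] at l
    have a1 := hu' (N + 1)
    have a2 := hu' 0
    simp only [Nat.zero_le, if_true] at a1 a2
    rw [div_lt_iff₀ hε] at hN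
    push_cast at l
    rw [e]
    nlinarith [norm_sub_le (u (N + 1)) (u 0)]

lemma ex1 (p : ENNReal) (hq : 0 < p.toReal) (f : lp (fun _ : ℕ => ℝ) p) :
    ∃ g : lp (fun _ : ℕ => ℝ) p, g 0 = 0 ∧ ∀ n, g (n + 1) = f n := by
  obtain ⟨g, g0, g1⟩ : ∃ g : ℕ → ℝ, g 0 = 0 ∧ ∀ n, g (n + 1) = f n :=
    ⟨fun n => n.casesOn 0 f, rfl, fun _ => rfl⟩
  have : Memℓp g p := memℓp_gen ((summable_nat_add_iff 1).1 (by
    simpa only [g1] using (lp.memℓp f).summable hq))
  exact ⟨⟨g, this⟩, g0, g1⟩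

lemma exS (p : ENNReal) [Fact (1 ≤ p)] (hq : 0 < p.toReal) :
    ∃ S : lp (fun _ : ℕ => ℝ) p →ₗᵢ[ℝ] lp (fun _ : ℕ => ℝ) p,
      (∀ f, S f 0 = 0) ∧ ∀ f n, S f (n + 1) = f n := by
  choose S S0 S1 using ex1 p hq
  refine ⟨{ toFun := S
            map_add' := fun f g => lp.ext (funext fun n => by cases n <;> simp [S0, S1])
            map_smul' := fun t f => lp.ext (funext fun n => by cases n <;> simp [S0, S1])
            norm_map' := fun f => ?_ }, S0, S1⟩
  show ‖S f‖ = _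
  rw [lp.norm_eq_tsum_rpow hq, lp.norm_eq_tsum_rpow hq,
    ((lp.memℓp (S f)).summable hq).tsum_eq_zero_add]
  simp [S0, S1, hq.ne']

lemma ell (p : ENNReal) [Fact (1 ≤ p)] (hp : p ≠ ⊤) (X : Type) [NormedAddCommGroup X]
    [NormedSpace ℝ X] (h : HasCompl X (lp (fun _ : ℕ => ℝ) p)) : PropH X := by
  obtain ⟨i, ρ, hi⟩ := h
  have p0 : p ≠ 0 := (zero_lt_one.trans_le Fact.out).ne'
  have hq : 0 < p.toReal := ENNReal.toReal_pos p0 hp
  obtain ⟨S, S0, S1⟩ := exS p hq
  have ns : ∀ n, ‖(lp.single p n 1 : lp (fun _ : ℕ => ℝ) p)‖ = 1 := fun n =>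
    (lp.norm_single (E := fun _ : ℕ => ℝ) p0.bot_lt n 1).trans norm_one
  intro α h0 h1
  refine Pool.Agent.Lib.helper15.Hol.gen i ρ hi S (lp.evalCLM ℝ (fun _ : ℕ => ℝ) p 0)
    (lp.single p 0 1) (lp.single_apply_self (E := fun _ : ℕ => ℝ) p 0 1) S0
    (fun z hz => lp.ext (funext fun n => ?_)) (fun ε hε => ?_) h0 h1
  · induction n with
    | zero => rw [← hz, S0]; rfl
    | succ n ih => rw [← hz, S1, ih]; rfl
  · obtain ⟨N, hN⟩ := exists_nat_gt ((2 / ε) ^ p.toReal)
    have a := lp.norm_sum_single (E := fun _ : ℕ => ℝ) hq (fun _ => 1) (Finset.range N)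
    refine ⟨∑ k ∈ Finset.range N, lp.single p k 1, ?_⟩
    have e : S (∑ k ∈ Finset.range N, lp.single p k 1) - ∑ k ∈ Finset.range N, lp.single p k 1 =
        lp.single p N 1 - lp.single p 0 1 := by
      rw [map_sum, ← Finset.sum_sub_distrib,
        ← Finset.sum_range_sub fun k => (lp.single p k 1 : lp (fun _ : ℕ => ℝ) p)]
      refine Finset.sum_congr rfl fun k _ => congrArg (· - _) (lp.ext (funext fun n => ?_))
      cases n <;> simp [S0, S1, Pi.single_apply]
    rw [e]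
    refine (norm_sub_le _ _).trans_lt ?_
    rw [ns, ns, one_add_one_eq_two, ← div_lt_iff₀' hε]
    by_contra hc
    have := Real.rpow_le_rpow (norm_nonneg _) (not_lt.1 hc) hq.le
    simp only [norm_one, Real.one_rpow, Finset.sum_const, Finset.card_range, nsmul_eq_mul,
      mul_one] at a
    linarith

theorem result :
    (∀ (X H : Type) [NormedAddCommGroup X] [NormedSpace ℝ X] [NormedAddCommGroup H]
      [InnerProductSpace ℝ H] [CompleteSpace H], ¬ FiniteDimensional ℝ X →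
      Nonempty (X ≃L[ℝ] H) → PropH X) ∧
    (∀ (X : Type) [NormedAddCommGroup X] [NormedSpace ℝ X], IsJames X → PropH X) ∧
    (∀ (p : ENNReal) [Fact (1 ≤ p)], p ≠ ⊤ → ∀ (X : Type) [NormedAddCommGroup X] [NormedSpace ℝ X],
      HasCompl X (lp (fun _ : ℕ => ℝ) p) → PropH X) ∧
    (∀ (X Z : Type) [NormedAddCommGroup X] [NormedSpace ℝ X] [NormedAddCommGroup Z]
      [NormedSpace ℝ Z] (S : Z →ₗᵢ[ℝ] Z) (φ : Z →L[ℝ] ℝ), HasCompl X Z → φ ≠ 0 →
      (∀ z, φ (S z) = 0) → (∀ z, S z = z → z = 0) → (∀ ε > 0, ∃ z, ‖S z - z‖ < ε * ‖z‖) →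
      PropH X) := by
  refine ⟨fun X H _ _ _ _ _ hX ⟨e⟩ => ?_, james, ell, ?_⟩
  · obtain ⟨w, b, -⟩ := exists_hilbertBasis ℝ H
    have : Infinite w := not_finite_iff_infinite.1 fun _ => by
      have := Fintype.ofFinite w
      have := b.toOrthonormalBasis.toBasis.finiteDimensional_of_finite
      exact hX e.symm.toLinearEquiv.finiteDimensional
    let I := (b.orthonormal.comp _ (Infinite.natEmbedding w).injective).orthogonalFamily.linearIsometry
    refine ell 2 (by norm_num) X ⟨e.symm.toContinuousLinearMap ∘L I.toContinuousLinearMap,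
      I.toContinuousLinearMap.adjoint ∘L e.toContinuousLinearMap, fun z => ?_⟩
    simp only [ContinuousLinearMap.comp_apply, ContinuousLinearEquiv.coe_coe, e.apply_symm_apply]
    exact DFunLike.congr_fun I.adjoint_comp_self z
  · intro X Z _ _ _ _ S φ ⟨i, ρ, hi⟩ hφ hS hf ha α h0 h1
    obtain ⟨e, he⟩ := DFunLike.ne_iff.1 hφ
    exact Pool.Agent.Lib.helper15.Hol.gen i ρ hi S φ ((φ e)⁻¹ • e)
      (by rw [map_smul, smul_eq_mul, inv_mul_cancel₀ he]) hS hf ha h0 h1

end Pool.Agent.Results.MP_93c42a_an.Shift
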